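import Pool.Agent.H13.EC.Def

/-!
Project EC, part S (slack): from the one-point lemma to the gain of the kernel `uu`.
-/

set_option autoImplicit false

namespace Pool.Agent.H16.EC

open Metric Set MeasureTheory H62.CJ H13.EC

/-- the constant of the gain -/
noncomputable def thg (g : ℝ) : ℝ := ((1 + g) ^ (9 / 20 : ℝ) - 1) / (6 * (1 + g))

lemma thg_pos (g : ℝ) (hg : 0 < g) : 0 < thg g := by
  unfold thg
  apply div_pos
  · have := Real.one_lt_rpow (x := 1 + g) (z := 9 / 20) (by linarith) (by norm_num)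
    linarith
  · positivity

/-- `D0, D` are the distances, `V` the scale -/
lemma gain_real (q κ g D0 D V y y0 δ : ℝ) (hq : 9 / 10 ≤ q) (hq1 : q < 1) (hκ : 0 < κ)
    (hg : 0 < g) (hV : 0 < V) (h1 : 2 * V ≤ D0) (h2 : D0 ≤ 6 * V) (hy : 0 < y) (hy0 : 0 < y0)
    (hD : (1 + g) * D0 * y ^ (κ / q) ≤ D * y0 ^ (κ / q)) (hδ : δ ^ 2 ≤ g * D0 ^ 2) :
    y ^ κ * (D ^ 2 + δ ^ 2) ^ (-(q / 2)) + thg g * (y0 ^ κ * V ^ (-q)) ≤
      y0 ^ κ * (D0 ^ 2 + δ ^ 2) ^ (-(q / 2)) := by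
  have hq0 : 0 < q := by linarith
  have hD0 : 0 < D0 := by linarith
  have hyr : 0 < y ^ (κ / q) := Real.rpow_pos_of_pos hy _
  have hy0r : 0 < y0 ^ (κ / q) := Real.rpow_pos_of_pos hy0 _
  have hDp : 0 < D := by
    have : 0 < D * y0 ^ (κ / q) := lt_of_lt_of_le (by positivity) hD
    by_contra hc
    have h0 := mul_nonpos_of_nonpos_of_nonneg (not_lt.mp hc) hy0r.le
    linarith
  have hg1 : 0 < 1 + g := by linarith
  -- raise to the power q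
  have h3 : ((1 + g) * D0 * y ^ (κ / q)) ^ q ≤ (D * y0 ^ (κ / q)) ^ q :=
    Real.rpow_le_rpow (by positivity) hD hq0.le
  have h4 : (y ^ (κ / q)) ^ q = y ^ κ := by
    rw [← Real.rpow_mul hy.le]
    congr 1
    field_simp
  have h5 : (y0 ^ (κ / q)) ^ q = y0 ^ κ := by
    rw [← Real.rpow_mul hy0.le]
    congr 1
    field_simp
  rw [Real.mul_rpow (by positivity) hyr.le, Real.mul_rpow hg1.le hD0.le,
    Real.mul_rpow hDp.le hy0r.le, h4, h5] at h3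
  have hyk : 0 < y ^ κ := Real.rpow_pos_of_pos hy _
  have hy0k : 0 < y0 ^ κ := Real.rpow_pos_of_pos hy0 _
  have hDq : 0 < D ^ q := Real.rpow_pos_of_pos hDp _
  have hD0q : 0 < D0 ^ q := Real.rpow_pos_of_pos hD0 _
  have hgq : 0 < (1 + g) ^ q := Real.rpow_pos_of_pos hg1 _
  have h6 : y ^ κ * D ^ (-q) ≤ (1 + g) ^ (-q) * (y0 ^ κ * D0 ^ (-q)) := by
    rw [Real.rpow_neg hDp.le, Real.rpow_neg hD0.le, Real.rpow_neg hg1.le]
    rw [← div_eq_mul_inv, ← div_eq_mul_inv, inv_mul_eq_div, div_le_div_iff₀ hDq hgq,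
      div_mul_eq_mul_div, le_div_iff₀ hD0q]
    nlinarith [h3]
  have h7 : (D ^ 2 + δ ^ 2) ^ (-(q / 2)) ≤ D ^ (-q) := by
    calc (D ^ 2 + δ ^ 2) ^ (-(q / 2)) ≤ (D ^ 2) ^ (-(q / 2)) :=
          Real.rpow_le_rpow_of_nonpos (by positivity) (by nlinarith [sq_nonneg δ]) (by linarith)
      _ = D ^ (-q) := by
          rw [← Real.rpow_natCast D 2, ← Real.rpow_mul hDp.le]
          congr 1
          push_cast
          ring
  have h8 : (1 + g) ^ (-(q / 2)) * D0 ^ (-q) ≤ (D0 ^ 2 + δ ^ 2) ^ (-(q / 2)) := by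
    calc (1 + g) ^ (-(q / 2)) * D0 ^ (-q) = ((1 + g) * D0 ^ 2) ^ (-(q / 2)) := by
          rw [Real.mul_rpow hg1.le (by positivity), ← Real.rpow_natCast D0 2,
            ← Real.rpow_mul hD0.le]
          congr 2
          push_cast
          ring
      _ ≤ (D0 ^ 2 + δ ^ 2) ^ (-(q / 2)) :=
          Real.rpow_le_rpow_of_nonpos (by positivity) (by nlinarith) (by linarith)
  have h9 : (6 : ℝ)⁻¹ * V ^ (-q) ≤ D0 ^ (-q) := by
    calc (6 : ℝ)⁻¹ * V ^ (-q) ≤ (6 : ℝ) ^ (-q) * V ^ (-q) := by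
          apply mul_le_mul_of_nonneg_right _ (Real.rpow_nonneg hV.le _)
          rw [← Real.rpow_neg_one]
          exact Real.rpow_le_rpow_of_exponent_le (by norm_num) (by linarith)
      _ = (6 * V) ^ (-q) := (Real.mul_rpow (by norm_num) hV.le).symm
      _ ≤ D0 ^ (-q) := Real.rpow_le_rpow_of_nonpos hD0 h2 (by linarith)
  have h10 : thg g ≤ ((1 + g) ^ (-(q / 2)) - (1 + g) ^ (-q)) * (6 : ℝ)⁻¹ := by
    have e1 : (1 + g) ^ (-(q / 2)) = (1 + g) ^ (-q) * (1 + g) ^ (q / 2) := by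
      rw [← Real.rpow_add hg1]
      congr 1
      ring
    have e2 : (1 + g)⁻¹ ≤ (1 + g) ^ (-q) := by
      rw [← Real.rpow_neg_one]
      exact Real.rpow_le_rpow_of_exponent_le (by linarith) (by linarith)
    have e3 : (1 + g) ^ (9 / 20 : ℝ) ≤ (1 + g) ^ (q / 2) :=
      Real.rpow_le_rpow_of_exponent_le (by linarith) (by linarith)
    have e4 : 1 ≤ (1 + g) ^ (9 / 20 : ℝ) := Real.one_le_rpow (by linarith) (by norm_num)
    have e5 : (1 + g)⁻¹ * ((1 + g) ^ (9 / 20 : ℝ) - 1) ≤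
        (1 + g) ^ (-q) * ((1 + g) ^ (q / 2) - 1) :=
      mul_le_mul e2 (by linarith) (by linarith) (Real.rpow_nonneg hg1.le _)
    have e6 : thg g = (1 + g)⁻¹ * ((1 + g) ^ (9 / 20 : ℝ) - 1) * (6 : ℝ)⁻¹ := by
      unfold thg
      field_simp
    rw [e6, e1]
    nlinarith
  have hV1 : 0 < V ^ (-q) := Real.rpow_pos_of_pos hV _
  have hdiff : 0 ≤ (1 + g) ^ (-(q / 2)) - (1 + g) ^ (-q) := by
    have : (1 + g) ^ (-q) ≤ (1 + g) ^ (-(q / 2)) :=
      Real.rpow_le_rpow_of_exponent_le (by linarith) (by linarith)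
    linarith
  have h11 : thg g * V ^ (-q) ≤ ((1 + g) ^ (-(q / 2)) - (1 + g) ^ (-q)) * D0 ^ (-q) := by
    calc thg g * V ^ (-q) ≤ (((1 + g) ^ (-(q / 2)) - (1 + g) ^ (-q)) * (6 : ℝ)⁻¹) * V ^ (-q) :=
          mul_le_mul_of_nonneg_right h10 hV1.le
      _ = ((1 + g) ^ (-(q / 2)) - (1 + g) ^ (-q)) * ((6 : ℝ)⁻¹ * V ^ (-q)) := by ring
      _ ≤ _ := mul_le_mul_of_nonneg_left h9 hdiff
  calc y ^ κ * (D ^ 2 + δ ^ 2) ^ (-(q / 2)) + thg g * (y0 ^ κ * V ^ (-q))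
      ≤ y ^ κ * D ^ (-q) + y0 ^ κ * (thg g * V ^ (-q)) := by
        have := mul_le_mul_of_nonneg_left h7 hyk.le
        nlinarith
    _ ≤ (1 + g) ^ (-q) * (y0 ^ κ * D0 ^ (-q)) +
          y0 ^ κ * (((1 + g) ^ (-(q / 2)) - (1 + g) ^ (-q)) * D0 ^ (-q)) :=
        add_le_add h6 (mul_le_mul_of_nonneg_left h11 hy0k.le)
    _ = y0 ^ κ * ((1 + g) ^ (-(q / 2)) * D0 ^ (-q)) := by ring
    _ ≤ _ := mul_le_mul_of_nonneg_left h8 hy0k.le

end Pool.Agent.H16.EC
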