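import Mathlib

/-!
Project EC, part S (slack): Harnack inequality for the derivative of a function whose Bloch quotient
`y F'' / F'` is bounded by `M`, on a ball of half the distance to the boundary.
-/

set_option autoImplicit false

namespace Pool.Agent.H16.EC

open Metric Set MeasureTheory

theorem harnack_aux (F : ℂ → ℂ) (M b : ℝ) (hM : 0 ≤ M)
    (hF : DifferentiableOn ℂ F {z : ℂ | 0 < z.im})
    (hA : ∀ z : ℂ, 0 < z.im → z.im ≤ 2 * b → z.im * ‖deriv (deriv F) z‖ ≤ M * ‖deriv F z‖)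
    (z0 z : ℂ) (h0 : 0 < z0.im) (h0b : z0.im ≤ b) (hz : ‖z - z0‖ ≤ z0.im / 2) :
    ‖deriv F z‖ ≤ Real.exp M * ‖deriv F z0‖ := by
  have hopen : IsOpen {z : ℂ | 0 < z.im} := isOpen_lt continuous_const Complex.continuous_im
  have hF' : DifferentiableOn ℂ (deriv F) {z : ℂ | 0 < z.im} := hF.deriv hopen
  have him : ∀ s : ℝ, s ∈ Icc (0 : ℝ) 1 → z0.im / 2 ≤ (z0 + s * (z - z0)).im ∧
      (z0 + s * (z - z0)).im ≤ 2 * b := by
    intro s hs
    have h1 : |(z - z0).im| ≤ z0.im / 2 := le_trans (Complex.abs_im_le_norm _) hz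
    have h2 : (z0 + s * (z - z0)).im = z0.im + s * (z - z0).im := by simp
    have h3 : |s * (z - z0).im| ≤ z0.im / 2 := by
      rw [abs_mul, abs_of_nonneg hs.1]
      nlinarith [abs_nonneg (z - z0).im, hs.2]
    rw [h2]
    have h4 := abs_le.mp h3
    constructor <;> linarith [h4.1, h4.2]
  have hder : ∀ s : ℝ, s ∈ Icc (0 : ℝ) 1 →
      HasDerivAt (fun s : ℝ => deriv F (z0 + s * (z - z0)))
        (deriv (deriv F) (z0 + s * (z - z0)) * (z - z0)) s := by
    intro s hs
    have hp : 0 < (z0 + s * (z - z0)).im := lt_of_lt_of_le (by linarith) (him s hs).1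
    have h1 : HasDerivAt (deriv F) (deriv (deriv F) (z0 + s * (z - z0))) (z0 + s * (z - z0)) :=
      ((hF' _ hp).differentiableAt (hopen.mem_nhds hp)).hasDerivAt
    have h2 : HasDerivAt (fun s : ℝ => z0 + (s : ℂ) * (z - z0)) (z - z0) s := by
      have h3 : HasDerivAt (fun s : ℝ => (s : ℂ)) 1 s := Complex.ofRealCLM.hasDerivAt
      have h4 := (h3.mul_const (z - z0)).const_add z0
      simpa using h4
    exact HasDerivAt.comp (𝕜 := ℝ) (h₂ := deriv F) (h := fun s : ℝ => z0 + (s : ℂ) * (z - z0)) s h1 h2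
  have hcont : ContinuousOn (fun s : ℝ => deriv F (z0 + s * (z - z0))) (Icc 0 1) :=
    fun s hs => (hder s hs).continuousAt.continuousWithinAt
  have hgr := norm_le_gronwallBound_of_norm_deriv_right_le (δ := ‖deriv F z0‖) (K := M) (ε := 0)
    hcont (fun s hs => (hder s ⟨hs.1, hs.2.le⟩).hasDerivWithinAt) (by simp) (by
      intro s hs
      have hs' : s ∈ Icc (0 : ℝ) 1 := ⟨hs.1, hs.2.le⟩
      have hp : 0 < (z0 + s * (z - z0)).im := lt_of_lt_of_le (by linarith) (him s hs').1
      have h1 := hA _ hp (him s hs').2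
      rw [norm_mul, add_zero]
      have h2 : ‖deriv (deriv F) (z0 + s * (z - z0))‖ * ‖z - z0‖ ≤
          ‖deriv (deriv F) (z0 + s * (z - z0))‖ * (z0 + s * (z - z0)).im :=
        mul_le_mul_of_nonneg_left (hz.trans (him s hs').1) (norm_nonneg _)
      linarith) 1 (by simp)
  rw [gronwallBound_ε0] at hgr
  simp only [Complex.ofReal_one, one_mul, add_sub_cancel, sub_zero, mul_one] at hgr
  rw [mul_comm]
  exact hgr

end Pool.Agent.H16.EC
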