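import Pool.Agent.H16.EC.Cover
import Pool.Agent.H16.EC.Harnack

/-!
Project EC, part S (slack): a compact set `K` of the upper half plane contains a finite set `u` of
centres of disjoint balls `closedBall z (t * z.im)`, such that the integral over `K` of
`W = y ^ (κ - q) |F'| ^ (2 - q)` is at most a constant times `∑ y ^ κ V ^ (2 - q)`, `V = y |F'|`.
-/

set_option autoImplicit false

namespace Pool.Agent.H16.EC

open Metric Set MeasureTheory

lemma mass_W (F : ℂ → ℂ) (M b κ q : ℝ) (hM : 0 ≤ M) (hq0 : 0 < q) (hq1 : q < 1)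
    (hκ0 : 0 < κ) (hκ : κ ≤ q)
    (hF : DifferentiableOn ℂ F {z : ℂ | 0 < z.im})
    (hA : ∀ z : ℂ, 0 < z.im → z.im ≤ 2 * b → z.im * ‖deriv (deriv F) z‖ ≤ M * ‖deriv F z‖)
    (z0 z : ℂ) (h0 : 0 < z0.im) (h0b : z0.im ≤ b) (hz : ‖z - z0‖ ≤ z0.im / 2) :
    z.im ^ (κ - q) * ‖deriv F z‖ ^ (2 - q) ≤
      2 * Real.exp (2 * M) * (z0.im ^ (κ - q) * ‖deriv F z0‖ ^ (2 - q)) := by
  have him : z0.im / 2 ≤ z.im := by
    have h1 : |(z - z0).im| ≤ z0.im / 2 := le_trans (Complex.abs_im_le_norm _) hz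
    have h4 := (abs_le.mp h1).1
    rw [Complex.sub_im] at h4
    linarith
  have h1 : z.im ^ (κ - q) ≤ 2 * z0.im ^ (κ - q) := by
    calc z.im ^ (κ - q) ≤ (z0.im / 2) ^ (κ - q) :=
          Real.rpow_le_rpow_of_nonpos (by linarith) him (by linarith)
      _ = z0.im ^ (κ - q) * (1 / 2 : ℝ) ^ (κ - q) := by
          rw [← Real.mul_rpow h0.le (by norm_num)]
          congr 1
          ring
      _ ≤ z0.im ^ (κ - q) * 2 := by
          apply mul_le_mul_of_nonneg_left _ (Real.rpow_nonneg h0.le _)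
          calc (1 / 2 : ℝ) ^ (κ - q) = 2 ^ (q - κ) := by
                rw [one_div, Real.inv_rpow (by norm_num), ← Real.rpow_neg (by norm_num)]
                congr 1
                ring
            _ ≤ 2 ^ (1 : ℝ) := Real.rpow_le_rpow_of_exponent_le (by norm_num) (by linarith)
            _ = 2 := by simp
      _ = 2 * z0.im ^ (κ - q) := by ring
  have h2 : ‖deriv F z‖ ^ (2 - q) ≤ Real.exp (2 * M) * ‖deriv F z0‖ ^ (2 - q) := by
    calc ‖deriv F z‖ ^ (2 - q) ≤ (Real.exp M * ‖deriv F z0‖) ^ (2 - q) :=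
          Real.rpow_le_rpow (norm_nonneg _) (harnack_aux F M b hM hF hA z0 z h0 h0b hz)
            (by linarith)
      _ = (Real.exp M) ^ (2 - q) * ‖deriv F z0‖ ^ (2 - q) :=
          Real.mul_rpow (Real.exp_pos _).le (norm_nonneg _)
      _ ≤ Real.exp (2 * M) * ‖deriv F z0‖ ^ (2 - q) := by
          apply mul_le_mul_of_nonneg_right _ (Real.rpow_nonneg (norm_nonneg _) _)
          rw [← Real.exp_mul]
          apply Real.exp_le_exp.mpr
          nlinarith
  calc z.im ^ (κ - q) * ‖deriv F z‖ ^ (2 - q)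
      ≤ (2 * z0.im ^ (κ - q)) * (Real.exp (2 * M) * ‖deriv F z0‖ ^ (2 - q)) :=
        mul_le_mul h1 h2 (Real.rpow_nonneg (norm_nonneg _) _)
          (mul_nonneg (by norm_num) (Real.rpow_nonneg h0.le _))
    _ = _ := by ring

lemma mass_ball (c : ℝ) (a : ℂ) (r : ℝ) (hr : 0 ≤ r) :
    ∫ z, (closedBall a r).indicator (fun _ => c) z = c * (Real.pi * r ^ 2) := by
  rw [integral_indicator_const c measurableSet_closedBall, smul_eq_mul, Measure.real,
    Complex.volume_closedBall]
  rw [ENNReal.toReal_mul, ENNReal.toReal_pow, ENNReal.toReal_ofReal hr]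
  simp only [ENNReal.coe_toReal, NNReal.coe_real_pi]
  ring

theorem mass_le (F : ℂ → ℂ) (M b κ q t : ℝ) (hM : 0 ≤ M) (hq0 : 0 < q) (hq1 : q < 1)
    (hκ0 : 0 < κ) (hκ : κ ≤ q) (ht : 0 < t) (ht8 : t ≤ 1 / 8)
    (hF : DifferentiableOn ℂ F {z : ℂ | 0 < z.im})
    (hA : ∀ z : ℂ, 0 < z.im → z.im ≤ 2 * b → z.im * ‖deriv (deriv F) z‖ ≤ M * ‖deriv F z‖)
    (K : Set ℂ) (hK : IsCompact K) (hKb : ∀ z ∈ K, 0 < z.im ∧ z.im ≤ b) :
    ∃ u : Finset ℂ, (∀ z ∈ u, z ∈ K) ∧
      (∀ z ∈ u, ∀ z' ∈ u, z ≠ z' →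
        Disjoint (closedBall z (t * z.im)) (closedBall z' (t * z'.im))) ∧
      ∫ z in K, z.im ^ (κ - q) * ‖deriv F z‖ ^ (2 - q) ≤
        32 * Real.pi * t ^ 2 * Real.exp (2 * M) *
          ∑ z ∈ u, z.im ^ κ * (z.im * ‖deriv F z‖) ^ (2 - q) := by
  obtain ⟨u, huK, hdisj, hcov⟩ := cover K hK (fun z hz => (hKb z hz).1) t ht
  refine ⟨u, huK, hdisj, ?_⟩
  have hopen : IsOpen {z : ℂ | 0 < z.im} := isOpen_lt continuous_const Complex.continuous_im
  have hF' : DifferentiableOn ℂ (deriv F) {z : ℂ | 0 < z.im} := hF.deriv hopen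
  set W : ℂ → ℝ := fun z => z.im ^ (κ - q) * ‖deriv F z‖ ^ (2 - q) with hW
  have hWcont : ContinuousOn W K := by
    apply ContinuousOn.mul
    · apply ContinuousOn.rpow_const Complex.continuous_im.continuousOn
      intro z hz
      exact Or.inl (hKb z hz).1.ne'
    · apply ContinuousOn.rpow_const
      · exact (hF'.continuousOn.mono (fun z hz => (hKb z hz).1)).norm
      · intro z hz
        exact Or.inr (by linarith)
  have hWint : IntegrableOn W K := hWcont.integrableOn_compact hK
  set G : ℂ → ℝ := fun z => ∑ a ∈ u,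
    (closedBall a (4 * t * a.im)).indicator (fun _ => 2 * Real.exp (2 * M) * W a) z with hG
  have hWnn : ∀ z : ℂ, 0 < z.im → 0 ≤ W z := fun z hz =>
    mul_nonneg (Real.rpow_nonneg hz.le _) (Real.rpow_nonneg (norm_nonneg _) _)
  have hterm : ∀ a ∈ u, Integrable
      ((closedBall a (4 * t * a.im)).indicator (fun _ => 2 * Real.exp (2 * M) * W a)) := by
    intro a ha
    rw [integrable_indicator_iff measurableSet_closedBall]
    exact integrableOn_const measure_closedBall_lt_top.ne
  have hGint : Integrable G := integrable_finset_sum u hterm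
  have hGnn : ∀ z, 0 ≤ G z := by
    intro z
    apply Finset.sum_nonneg
    intro a ha
    apply indicator_nonneg
    intro _ _
    exact mul_nonneg (by positivity) (hWnn a (hKb a (huK a ha)).1)
  have hle : ∀ z ∈ K, W z ≤ G z := by
    intro z hz
    have h1 := hcov hz
    simp only [mem_iUnion] at h1
    obtain ⟨a, ha, hza⟩ := h1
    have haK := hKb a (huK a ha)
    have h2 : W z ≤ 2 * Real.exp (2 * M) * W a := by
      apply mass_W F M b κ q hM hq0 hq1 hκ0 hκ hF hA a z haK.1 haK.2
      rw [← dist_eq_norm]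
      refine le_trans hza ?_
      nlinarith [haK.1]
    refine le_trans h2 ?_
    calc 2 * Real.exp (2 * M) * W a
        = (closedBall a (4 * t * a.im)).indicator (fun _ => 2 * Real.exp (2 * M) * W a) z := by
          rw [indicator_of_mem hza]
      _ ≤ G z := by
          apply Finset.single_le_sum (f := fun a => (closedBall a (4 * t * a.im)).indicator
            (fun _ => 2 * Real.exp (2 * M) * W a) z) _ ha
          intro a' ha'
          apply indicator_nonneg
          intro _ _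
          exact mul_nonneg (by positivity) (hWnn a' (hKb a' (huK a' ha')).1)
  calc ∫ z in K, W z ≤ ∫ z in K, G z :=
        setIntegral_mono_on hWint hGint.integrableOn hK.measurableSet hle
    _ ≤ ∫ z, G z := setIntegral_le_integral hGint (Filter.Eventually.of_forall hGnn)
    _ = ∑ a ∈ u, ∫ z, (closedBall a (4 * t * a.im)).indicator
          (fun _ => 2 * Real.exp (2 * M) * W a) z := by
        rw [hG]
        exact integral_finsetSum u hterm
    _ = ∑ a ∈ u, 32 * Real.pi * t ^ 2 * Real.exp (2 * M) *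
          (a.im ^ κ * (a.im * ‖deriv F a‖) ^ (2 - q)) := by
        apply Finset.sum_congr rfl
        intro a ha
        have hpos := (hKb a (huK a ha)).1
        rw [mass_ball _ _ _ (by positivity), hW]
        have h1 : a.im ^ κ * (a.im * ‖deriv F a‖) ^ (2 - q) =
            a.im ^ 2 * (a.im ^ (κ - q) * ‖deriv F a‖ ^ (2 - q)) := by
          rw [Real.mul_rpow hpos.le (norm_nonneg _), ← mul_assoc, ← mul_assoc,
            ← Real.rpow_add hpos, ← Real.rpow_natCast a.im 2, ← Real.rpow_add hpos]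
          congr 2
          push_cast
          ring
        rw [h1]
        ring
    _ = _ := by rw [Finset.mul_sum]

end Pool.Agent.H16.EC
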