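import Mathlib

/-!
# EC-S1: the one-point lemma (note 1487, Step 5), independent of the kernel

`A = y0 F''(z0)/F'(z0)`, `c = A - i (1/2 - r)`, `|c| ≤ 1/2 - η`; `w` is near `F z0 - i y0 F'(z0)/r`.  Then
`|F z - w| / (Im z)^r` has a strict local minimum near `z0`.

PROOF.  `z = z0 + y0 τ`, `h τ = (F z - F z0)/(y0 F' z0)`, `w = F z0 - i y0 F'(z0) T`, `T = 1/r + O(ζ)`;
`(F z - w)/(F z0 - w) = 1 - i h/T`.  On `|τ| ≤ 1/2`: `|h'| ≤ e^4` (Harnack), `|h''| ≤ 8 e^4`, so (Cauchy estimate)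
`|h'''| ≤ 32 e^4` on `|τ| ≤ 1/4` and `|h τ - τ - A τ^2/2| ≤ C |τ|^3`.  So
`|1 - i h/T|^2 = 1 + 2 Re (-i h/T) + |h/T|^2 ≥ 1 + 2 r Im τ + r Re (-i A τ^2) + r^2 |τ|^2 - C |τ|^3 - C ζ |τ|`,
`(1 + Im τ)^(2r) ≤ 1 + 2 r Im τ + r (2r - 1) (Im τ)^2 + C |τ|^3`, `(Im τ)^2 = (|τ|^2 - Re τ^2)/2`, difference
`r [|τ|^2/2 + Re (-i c τ^2)] - C |τ|^3 - C ζ |τ| ≥ r η |τ|^2 - C |τ|^3 - C ζ |τ|`.  Choose `t` small, then `ζ, g` small
compared with `t`.
-/

set_option autoImplicit false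

open Set Metric MeasureTheory

namespace Pool.Agent.H16.EC

/-- third order Taylor estimate -/
theorem op_taylor (h h1 h2 : ℂ → ℂ) (B : ℝ) (hB : 0 ≤ B)
    (hd : ∀ τ ∈ ball (0 : ℂ) 1, HasDerivAt h (h1 τ) τ)
    (hd1 : ∀ τ ∈ ball (0 : ℂ) 1, HasDerivAt h1 (h2 τ) τ)
    (hd2 : DifferentiableOn ℂ h2 (ball 0 1))
    (hb : ∀ τ ∈ closedBall (0 : ℂ) (1 / 2), ‖h2 τ‖ ≤ B)
    (h0 : h 0 = 0) (h10 : h1 0 = 1) (τ : ℂ) (hτ : ‖τ‖ ≤ 1 / 4) :
    ‖h τ - τ - h2 0 * τ ^ 2 / 2‖ ≤ 4 * B * ‖τ‖ ^ 3 := by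
  set ρ : ℝ := ‖τ‖ with hρ
  have hρ0 : 0 ≤ ρ := norm_nonneg _
  have hsub : closedBall (0 : ℂ) ρ ⊆ ball 0 1 := by
    intro z hz
    rw [mem_closedBall, dist_zero_right] at hz
    rw [mem_ball, dist_zero_right]
    linarith
  have hmem : ∀ z ∈ closedBall (0 : ℂ) ρ, ‖z‖ ≤ ρ := by
    intro z hz
    rwa [mem_closedBall, dist_zero_right] at hz
  have h0m : (0 : ℂ) ∈ closedBall (0 : ℂ) ρ := by simp [hρ0]
  have hconv : Convex ℝ (closedBall (0 : ℂ) ρ) := convex_closedBall _ _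
  -- Cauchy estimate
  have hc : ∀ z ∈ closedBall (0 : ℂ) ρ, ‖deriv h2 z‖ ≤ 4 * B := by
    intro z hz
    have hz1 := hmem z hz
    have hcb : closedBall z (1 / 4) ⊆ closedBall (0 : ℂ) (1 / 2) := by
      intro v hv
      rw [mem_closedBall, dist_eq_norm] at hv
      rw [mem_closedBall, dist_zero_right]
      have : ‖v‖ ≤ ‖v - z‖ + ‖z‖ := by
        have := norm_add_le (v - z) z
        simpa using this
      linarith
    have hsub2 : closedBall (0 : ℂ) (1 / 2) ⊆ ball 0 1 := closedBall_subset_ball (by norm_num)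
    have hdc : DiffContOnCl ℂ h2 (ball z (1 / 4)) := by
      apply DifferentiableOn.diffContOnCl
      rw [closure_ball z (by norm_num)]
      exact hd2.mono (hcb.trans hsub2)
    have := Complex.norm_deriv_le_of_forall_mem_sphere_norm_le (c := z) (R := 1 / 4) (C := B)
      (f := h2) (by norm_num) hdc (fun v hv => hb v (hcb (sphere_subset_closedBall hv)))
    calc ‖deriv h2 z‖ ≤ B / (1 / 4) := this
      _ = 4 * B := by ring
  -- first integration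
  have e2 : ∀ z ∈ closedBall (0 : ℂ) ρ, ‖h2 z - h2 0‖ ≤ 4 * B * ρ := by
    intro z hz
    have := hconv.norm_image_sub_le_of_norm_deriv_le (𝕜 := ℂ) (f := h2) (C := 4 * B)
      (fun v hv => (hd2 v (hsub hv)).differentiableAt (isOpen_ball.mem_nhds (hsub hv))) hc h0m hz
    rw [sub_zero] at this
    exact this.trans (mul_le_mul_of_nonneg_left (hmem z hz) (by positivity))
  -- second integration
  have e1 : ∀ z ∈ closedBall (0 : ℂ) ρ, ‖h1 z - 1 - h2 0 * z‖ ≤ 4 * B * ρ ^ 2 := by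
    intro z hz
    have hd' : ∀ v ∈ closedBall (0 : ℂ) ρ,
        HasDerivWithinAt (fun v => h1 v - 1 - h2 0 * v) (h2 v - h2 0) (closedBall 0 ρ) v := by
      intro v hv
      have a : HasDerivAt (fun v => h1 v - 1 - h2 0 * v) (h2 v - h2 0 * 1) v :=
        ((hd1 v (hsub hv)).sub_const 1).fun_sub ((hasDerivAt_id' v).const_mul (h2 0))
      rw [mul_one] at a
      exact a.hasDerivWithinAt
    have := hconv.norm_image_sub_le_of_norm_hasDerivWithin_le (𝕜 := ℂ) hd' e2 h0m hz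
    simp only [h10, sub_self, mul_zero, sub_zero] at this
    calc ‖h1 z - 1 - h2 0 * z‖ ≤ 4 * B * ρ * ‖z‖ := this
      _ ≤ 4 * B * ρ * ρ := mul_le_mul_of_nonneg_left (hmem z hz) (by positivity)
      _ = 4 * B * ρ ^ 2 := by ring
  -- third integration
  have hd' : ∀ v ∈ closedBall (0 : ℂ) ρ,
      HasDerivWithinAt (fun v => h v - v - h2 0 * v ^ 2 / 2) (h1 v - 1 - h2 0 * v)
        (closedBall 0 ρ) v := by
    intro v hv
    have a : HasDerivAt (fun v => h v - v - h2 0 * v ^ 2 / 2) (h1 v - 1 - h2 0 * (2 * v) / 2) v :=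
      ((hd v (hsub hv)).fun_sub (hasDerivAt_id' v)).fun_sub
      (((by simpa using hasDerivAt_pow 2 v : HasDerivAt (fun x : ℂ => x ^ 2) (2 * v) v).const_mul
        (h2 0)).div_const 2)
    have b : HasDerivAt (fun v => h v - v - h2 0 * v ^ 2 / 2) (h1 v - 1 - h2 0 * v) v := by
      convert a using 1
      ring
    exact b.hasDerivWithinAt
  have hz : τ ∈ closedBall (0 : ℂ) ρ := by simp [hρ]
  have := hconv.norm_image_sub_le_of_norm_hasDerivWithin_le (𝕜 := ℂ) hd' e1 h0m hz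
  have h3 : ‖h τ - τ - h2 0 * τ ^ 2 / 2‖ ≤ 4 * B * ρ ^ 2 * ‖τ‖ := by
    simpa [h0] using this
  calc ‖h τ - τ - h2 0 * τ ^ 2 / 2‖ ≤ 4 * B * ρ ^ 2 * ‖τ‖ := h3
    _ = 4 * B * ρ ^ 3 := by rw [← hρ]; ring

/-- upper bound for a power near `1` -/
theorem op_rpow (s u : ℝ) (hs0 : 0 ≤ s) (hs : s ≤ 2 / 3) (hu : |u| ≤ 1 / 8) :
    (1 + u) ^ s ≤ 1 + s * u + s * (s - 1) / 2 * u ^ 2 + 2 * |u| ^ 3 := by
  have hu' := abs_le.mp hu
  have hpos : 0 < 1 + u := by linarith [hu'.1]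
  set a := |u| with ha
  have ha0 : 0 ≤ a := abs_nonneg u
  have hsq : u ^ 2 = a ^ 2 := by rw [ha, sq_abs]
  have hua := abs_le.mp (le_refl |u|)
  rw [← ha] at hua
  -- logarithm
  have hlog := Real.abs_log_sub_add_sum_range_le (x := -u) (by rw [abs_neg, ← ha]; linarith) 2
  rw [abs_neg, ← ha] at hlog
  simp only [Finset.sum_range_succ, Finset.sum_range_zero] at hlog
  norm_num at hlog
  set L := Real.log (1 + u) with hL
  have hl1 : a ^ 3 / (1 - a) ≤ 8 / 7 * a ^ 3 := by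
    rw [div_le_iff₀ (by linarith)]
    nlinarith [pow_nonneg ha0 3]
  have hl2 : |-u + u ^ 2 / 2 + L| ≤ 8 / 7 * a ^ 3 := by
    refine le_trans (le_of_eq ?_) (hlog.trans hl1)
    congr 1
  have hl3 := abs_le.mp hl2
  set θ := -u + u ^ 2 / 2 + L with hθ
  have hLθ : L = u - u ^ 2 / 2 + θ := by rw [hθ]; ring
  have ha3 : a ^ 3 ≤ a ^ 2 / 8 := by nlinarith [sq_nonneg a]
  have ha2 : a ^ 2 ≤ a / 8 := by nlinarith
  have hLu : |L - u| ≤ a ^ 2 := by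
    rw [abs_le]
    constructor
    · rw [hLθ, hsq]; nlinarith [hl3.1]
    · rw [hLθ, hsq]; nlinarith [hl3.2, sq_nonneg a]
  have hLa : |L| ≤ 9 / 8 * a := by
    have : |L| ≤ |L - u| + |u| := by
      have := abs_add_le (L - u) u
      simpa using this
    rw [← ha] at this
    nlinarith
  have hL2 : L ^ 2 ≤ a ^ 2 + 3 * a ^ 3 := by
    have e : L ^ 2 = u ^ 2 + (L - u) * (L + u) := by ring
    have e2 : |(L - u) * (L + u)| ≤ a ^ 2 * (17 / 8 * a) := by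
      rw [abs_mul]
      apply mul_le_mul hLu _ (abs_nonneg _) (by positivity)
      have := abs_add_le L u
      rw [← ha] at this
      linarith
    have e3 := (abs_le.mp e2).2
    rw [e, hsq]
    nlinarith [pow_nonneg ha0 3]
  -- exponential
  have hx : |s * L| ≤ 1 := by
    rw [abs_mul, abs_of_nonneg hs0]
    nlinarith [abs_nonneg L]
  have hexp := Real.exp_bound (x := s * L) hx (n := 3) (by norm_num)
  simp only [Finset.sum_range_succ, Finset.sum_range_zero, Nat.factorial] at hexp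
  norm_num at hexp
  rw [← abs_mul] at hexp
  have hexp2 := (abs_le.mp hexp).2
  have hrp : (1 + u) ^ s = Real.exp (s * L) := by
    rw [Real.rpow_def_of_pos hpos, mul_comm]
  have hx3 : |s * L| ^ 3 ≤ a ^ 3 := by
    apply pow_le_pow_left₀ (abs_nonneg _)
    rw [abs_mul, abs_of_nonneg hs0]
    nlinarith [abs_nonneg L]
  rw [hrp]
  have hs2 : s ^ 2 ≤ 4 / 9 := by nlinarith
  have hs2' : 0 ≤ s ^ 2 := sq_nonneg s
  have key : s * L ≤ s * u - s * (a ^ 2) / 2 + 16 / 21 * a ^ 3 := by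
    rw [hLθ, hsq]
    have h4 : s * θ ≤ 2 / 3 * (8 / 7 * a ^ 3) := by
      calc s * θ ≤ s * (8 / 7 * a ^ 3) := mul_le_mul_of_nonneg_left hl3.2 hs0
        _ ≤ 2 / 3 * (8 / 7 * a ^ 3) := mul_le_mul_of_nonneg_right hs (by positivity)
    have h5 : s * (u - a ^ 2 / 2 + θ) = s * u - s * (a ^ 2) / 2 + s * θ := by ring
    rw [h5]
    linarith
  have key2 : (s * L) ^ 2 / 2 ≤ s ^ 2 * a ^ 2 / 2 + 2 / 3 * a ^ 3 := by
    have : (s * L) ^ 2 = s ^ 2 * L ^ 2 := by ring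
    rw [this]
    have h5 : s ^ 2 * L ^ 2 ≤ s ^ 2 * (a ^ 2 + 3 * a ^ 3) := mul_le_mul_of_nonneg_left hL2 hs2'
    have h6 : s ^ 2 * (3 * a ^ 3) ≤ 4 / 9 * (3 * a ^ 3) :=
      mul_le_mul_of_nonneg_right hs2 (by positivity)
    have h7 : s ^ 2 * (a ^ 2 + 3 * a ^ 3) = s ^ 2 * a ^ 2 + s ^ 2 * (3 * a ^ 3) := by ring
    rw [h7] at h5
    linarith
  have hfin : Real.exp (s * L) ≤ 1 + s * L + (s * L) ^ 2 / 2 + 2 / 9 * a ^ 3 := by
    linarith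
  rw [hsq]
  have h8 : s * (s - 1) / 2 * a ^ 2 = s ^ 2 * a ^ 2 / 2 - s * a ^ 2 / 2 := by ring
  have h9 : 0 ≤ a ^ 3 := pow_nonneg ha0 3
  rw [h8]
  linarith

/-- the algebraic heart -/
theorem op_core (η r t ζ g : ℝ) (hη : 0 < η) (hη1 : η < 1 / 2) (hr : 1 / 5 ≤ r) (hr1 : r ≤ 1 / 3)
    (ht : t = η / 20000) (hζ : ζ = η * t / 80) (hg : g = η * t ^ 2 / 2000)
    (τ hh T A : ℂ) (hτ1 : t / 2 ≤ ‖τ‖) (hτ2 : ‖τ‖ ≤ t)
    (hT : ‖T - ((1 / r : ℝ) : ℂ)‖ ≤ ζ) (hA : ‖A‖ ≤ 4)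
    (hc : ‖A - ((1 / 2 - r : ℝ) : ℂ) * Complex.I‖ ≤ 1 / 2 - η)
    (hh1 : ‖hh - τ - A * τ ^ 2 / 2‖ ≤ 1760 * ‖τ‖ ^ 3) :
    ((1 + g) * ‖T‖) ^ 2 * (1 + τ.im) ^ (2 * r) ≤ ‖hh + Complex.I * T‖ ^ 2 := by
  set ρ : ℝ := ‖τ‖ with hρ
  set u : ℝ := τ.im with hu
  have ht0 : 0 < t := by rw [ht]; positivity
  have ht1 : t ≤ 1 / 40000 := by rw [ht]; linarith
  have hρ0 : 0 < ρ := by linarith
  have hρ1 : ρ ≤ 1 / 40000 := hτ2.trans ht1
  have hζ0 : 0 < ζ := by rw [hζ]; positivity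
  have hζ1 : ζ ≤ 1 / 100 := by
    rw [hζ]
    have : η * t ≤ 1 * (1 / 40000) := mul_le_mul (by linarith) ht1 ht0.le (by norm_num)
    linarith
  have hg0 : 0 < g := by rw [hg]; positivity
  have hg1 : g ≤ 1 / 100 := by
    rw [hg]
    have h9 : t ^ 2 ≤ 1 ^ 2 := pow_le_pow_left₀ ht0.le (by linarith) 2
    have h10 : η * t ^ 2 ≤ 1 * 1 ^ 2 := mul_le_mul (by linarith) h9 (by positivity) (by norm_num)
    linarith
  have hr0 : 0 < r := by linarith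
  set R : ℝ := 1 / r with hR
  have hRr : R * r = 1 := by rw [hR]; field_simp
  have hR3 : 3 ≤ R := by rw [hR, le_div_iff₀ hr0]; linarith
  have hR5 : R ≤ 5 := by rw [hR, div_le_iff₀ hr0]; linarith
  have huρ : |u| ≤ ρ := Complex.abs_im_le_norm τ
  have hu8 : |u| ≤ 1 / 8 := by linarith
  have huu := abs_le.mp huρ
  have hρ2 : ρ ^ 2 ≤ ρ / 40000 := by
    have : ρ * ρ ≤ ρ * (1 / 40000) := mul_le_mul_of_nonneg_left hρ1 hρ0.le
    linarith [sq ρ]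
  have hρ3 : ρ ^ 3 ≤ ρ ^ 2 / 40000 := by
    have : ρ ^ 2 * ρ ≤ ρ ^ 2 * (1 / 40000) := mul_le_mul_of_nonneg_left hρ1 (sq_nonneg ρ)
    linarith [pow_succ ρ 2]
  have hρ3' : 0 < ρ ^ 3 := by positivity
  have hρ2' : 0 < ρ ^ 2 := by positivity
  -- size of hh
  have h1 : ‖hh - τ‖ ≤ 4 * ρ ^ 2 := by
    have e : hh - τ = (hh - τ - A * τ ^ 2 / 2) + A * τ ^ 2 / 2 := by ring
    have e2 : ‖A * τ ^ 2 / 2‖ ≤ 2 * ρ ^ 2 := by
      rw [norm_div, norm_mul, norm_pow, ← hρ]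
      simp only [Complex.norm_ofNat]
      have : ‖A‖ * ρ ^ 2 ≤ 4 * ρ ^ 2 := mul_le_mul_of_nonneg_right hA (sq_nonneg ρ)
      linarith
    calc ‖hh - τ‖ ≤ ‖hh - τ - A * τ ^ 2 / 2‖ + ‖A * τ ^ 2 / 2‖ := by
          conv_lhs => rw [e]
          exact norm_add_le _ _
      _ ≤ 1760 * ρ ^ 3 + 2 * ρ ^ 2 := add_le_add hh1 e2
      _ ≤ 4 * ρ ^ 2 := by linarith
  have h2 : ‖hh‖ ≤ 2 * ρ := by
    have := norm_sub_norm_le hh τ
    rw [← hρ] at this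
    linarith
  have h3 : ρ - 4 * ρ ^ 2 ≤ ‖hh‖ := by
    have := norm_sub_norm_le τ hh
    rw [← hρ, norm_sub_rev] at this
    linarith
  have h4 : ρ ^ 2 - 12 * ρ ^ 3 ≤ ‖hh‖ ^ 2 := by
    have h5 : 0 ≤ ρ - 4 * ρ ^ 2 := by linarith
    have h6 : (ρ - 4 * ρ ^ 2) ^ 2 ≤ ‖hh‖ ^ 2 := pow_le_pow_left₀ h5 h3 2
    have h7 : (ρ - 4 * ρ ^ 2) ^ 2 = ρ ^ 2 - 8 * ρ ^ 3 + 16 * ρ ^ 4 := by ring
    have h8 : 0 ≤ ρ ^ 4 := by positivity
    linarith
  -- imaginary part of hh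
  have h5 : u + (A * τ ^ 2).im / 2 - 1760 * ρ ^ 3 ≤ hh.im := by
    have e := (abs_le.mp ((Complex.abs_im_le_norm (hh - τ - A * τ ^ 2 / 2)).trans hh1)).1
    have e2 : (hh - τ - A * τ ^ 2 / 2).im = hh.im - u - (A * τ ^ 2).im / 2 := by
      rw [Complex.sub_im, Complex.sub_im, ← hu]
      rw [Complex.div_ofNat_im]
    rw [e2] at e
    linarith
  -- coordinates of T
  have hT1 : |T.re - R| ≤ ζ := by
    have := (Complex.abs_re_le_norm (T - ((R : ℝ) : ℂ))).trans hT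
    simpa using this
  have hT2 : |T.im| ≤ ζ := by
    have := (Complex.abs_im_le_norm (T - ((R : ℝ) : ℂ))).trans hT
    simpa using this
  have hT1' := abs_le.mp hT1
  have hT2' := abs_le.mp hT2
  have hnT : ‖T‖ ^ 2 = T.re ^ 2 + T.im ^ 2 := by
    rw [Complex.sq_norm, Complex.normSq_apply]; ring
  have hRζ : R * ζ ≤ 5 * ζ := mul_le_mul_of_nonneg_right hR5 hζ0.le
  have hζζ : ζ ^ 2 ≤ ζ := by
    rw [sq]
    exact mul_le_of_le_one_right hζ0.le (by linarith)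
  have hT3 : ‖T‖ ^ 2 ≤ R ^ 2 + 12 * ζ := by
    rw [hnT]
    have b1 : T.re ^ 2 ≤ (R + ζ) ^ 2 := pow_le_pow_left₀ (by linarith) (by linarith) 2
    have b2 : T.im ^ 2 ≤ ζ ^ 2 := sq_le_sq' hT2'.1 hT2'.2
    have b3 : (R + ζ) ^ 2 = R ^ 2 + 2 * (R * ζ) + ζ ^ 2 := by ring
    linarith
  have hT4 : R ^ 2 - 12 * ζ ≤ ‖T‖ ^ 2 := by
    rw [hnT]
    have b1 : (R - ζ) ^ 2 ≤ T.re ^ 2 := pow_le_pow_left₀ (by linarith) (by linarith) 2
    have b2 : 0 ≤ T.im ^ 2 := sq_nonneg _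
    have b3 : (R - ζ) ^ 2 = R ^ 2 - 2 * (R * ζ) + ζ ^ 2 := by ring
    have b4 : 0 ≤ ζ ^ 2 := sq_nonneg _
    linarith
  have hRR : R ^ 2 ≤ 5 ^ 2 := pow_le_pow_left₀ (by linarith) hR5 2
  have hT5 : ‖T‖ ^ 2 ≤ 37 := by linarith
  -- the norm of hh + i T
  have hexp : ‖hh + Complex.I * T‖ ^ 2 =
      ‖T‖ ^ 2 + 2 * (hh.im * T.re - hh.re * T.im) + ‖hh‖ ^ 2 := by
    rw [Complex.sq_norm, Complex.sq_norm, Complex.sq_norm, Complex.normSq_apply,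
      Complex.normSq_apply, Complex.normSq_apply]
    simp only [Complex.add_re, Complex.add_im, Complex.mul_re, Complex.mul_im, Complex.I_re,
      Complex.I_im]
    ring
  have hare := abs_le.mp ((Complex.abs_re_le_norm hh).trans h2)
  have haim := abs_le.mp ((Complex.abs_im_le_norm hh).trans h2)
  have h6 : 2 * R * hh.im - 8 * ζ * ρ ≤ 2 * (hh.im * T.re - hh.re * T.im) := by
    have a1 : |hh.im * (T.re - R)| ≤ 2 * ρ * ζ := by
      rw [abs_mul]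
      exact mul_le_mul ((Complex.abs_im_le_norm hh).trans h2) hT1 (abs_nonneg _) (by positivity)
    have a2 : |hh.re * T.im| ≤ 2 * ρ * ζ := by
      rw [abs_mul]
      exact mul_le_mul ((Complex.abs_re_le_norm hh).trans h2) hT2 (abs_nonneg _) (by positivity)
    have a1' := (abs_le.mp a1).1
    have a2' := (abs_le.mp a2).2
    linarith
  have h7 : 2 * R * u + R * (A * τ ^ 2).im - 17600 * ρ ^ 3 ≤ 2 * R * hh.im := by
    have a1 : R * (u + (A * τ ^ 2).im / 2 - 1760 * ρ ^ 3) ≤ R * hh.im :=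
      mul_le_mul_of_nonneg_left h5 (by linarith)
    have a2 : R * ρ ^ 3 ≤ 5 * ρ ^ 3 := mul_le_mul_of_nonneg_right hR5 hρ3'.le
    linarith
  have hlow : ‖T‖ ^ 2 + 2 * R * u + R * (A * τ ^ 2).im - 17600 * ρ ^ 3 - 8 * ζ * ρ + ρ ^ 2
      - 12 * ρ ^ 3 ≤ ‖hh + Complex.I * T‖ ^ 2 := by
    rw [hexp]
    linarith
  -- the power
  set a : ℝ := (1 + u) ^ (2 * r) with ha
  have h1u : 0 < 1 + u := by linarith [huu.1]
  have ha0 : 0 ≤ a := Real.rpow_nonneg h1u.le _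
  have ha1 : a ≤ 1 + 2 * r * u + 2 * r * (2 * r - 1) / 2 * u ^ 2 + 2 * |u| ^ 3 :=
    op_rpow (2 * r) u (by linarith) (by linarith) hu8
  have hcube : |u| ^ 3 ≤ ρ ^ 3 := pow_le_pow_left₀ (abs_nonneg _) huρ 3
  have ha2 : a ≤ 1 + ρ := by
    have h := rpow_one_add_le_one_add_mul_self (s := u) (p := 2 * r) (by linarith)
      (by linarith) (by linarith)
    have h8 : 2 * r * u ≤ 2 * r * |u| := mul_le_mul_of_nonneg_left (le_abs_self u) (by linarith)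
    have h9 : 2 * r * |u| ≤ 1 * |u| := mul_le_mul_of_nonneg_right (by linarith) (abs_nonneg u)
    linarith
  have ha3 : 1 - ρ ≤ a := by
    rcases le_or_gt 0 u with h | h
    · have : 1 ≤ a := Real.one_le_rpow (by linarith) (by linarith)
      linarith
    · have h8 : (1 + u) ^ (1 : ℝ) ≤ a :=
        Real.rpow_le_rpow_of_exponent_ge h1u (by linarith) (by linarith)
      rw [Real.rpow_one] at h8
      linarith [huu.1]
  have ha4 : |a - 1| ≤ ρ := by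
    rw [abs_le]
    constructor <;> linarith
  -- upper bound of the left side
  have hup : ‖T‖ ^ 2 * a ≤ ‖T‖ ^ 2 + 2 * R * u - R * (1 - 2 * r) * u ^ 2 + 50 * ρ ^ 3
      + 12 * ζ * ρ := by
    have e : ‖T‖ ^ 2 * a = ‖T‖ ^ 2 + R ^ 2 * (a - 1) + (‖T‖ ^ 2 - R ^ 2) * (a - 1) := by ring
    have e1 : (‖T‖ ^ 2 - R ^ 2) * (a - 1) ≤ 12 * ζ * ρ := by
      calc (‖T‖ ^ 2 - R ^ 2) * (a - 1) ≤ |(‖T‖ ^ 2 - R ^ 2) * (a - 1)| := le_abs_self _
        _ = |‖T‖ ^ 2 - R ^ 2| * |a - 1| := abs_mul _ _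
        _ ≤ 12 * ζ * ρ := by
          apply mul_le_mul _ ha4 (abs_nonneg _) (by positivity)
          rw [abs_le]
          constructor <;> linarith
    have e2 : R ^ 2 * (a - 1) ≤
        R ^ 2 * (2 * r * u + 2 * r * (2 * r - 1) / 2 * u ^ 2 + 2 * |u| ^ 3) :=
      mul_le_mul_of_nonneg_left (by linarith) (sq_nonneg _)
    have e3 : R ^ 2 * (2 * r * u + 2 * r * (2 * r - 1) / 2 * u ^ 2 + 2 * |u| ^ 3) =
        2 * R * u - R * (1 - 2 * r) * u ^ 2 + 2 * R ^ 2 * |u| ^ 3 := by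
      have : R ^ 2 * (2 * r * u + 2 * r * (2 * r - 1) / 2 * u ^ 2 + 2 * |u| ^ 3) =
        2 * R * (R * r) * u - R * (R * r) * (1 - 2 * r) * u ^ 2 + 2 * R ^ 2 * |u| ^ 3 := by ring
      rw [this, hRr]
      ring
    have e4 : 2 * R ^ 2 * |u| ^ 3 ≤ 50 * ρ ^ 3 := by
      have : R ^ 2 ≤ 25 := by linarith
      have h9 : R ^ 2 * |u| ^ 3 ≤ 25 * ρ ^ 3 :=
        mul_le_mul this hcube (by positivity) (by norm_num)
      linarith
    rw [e]
    linarith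
  have hup2 : ((1 + g) * ‖T‖) ^ 2 * a ≤ ‖T‖ ^ 2 * a + 222 * g := by
    have e : ((1 + g) * ‖T‖) ^ 2 * a = ‖T‖ ^ 2 * a + (2 * g + g ^ 2) * (‖T‖ ^ 2 * a) := by ring
    have e1 : ‖T‖ ^ 2 * a ≤ 37 * 2 := mul_le_mul hT5 (by linarith) ha0 (by norm_num)
    have e2 : 2 * g + g ^ 2 ≤ 3 * g := by
      have : g ^ 2 ≤ g := by
        rw [sq]
        exact mul_le_of_le_one_right hg0.le (by linarith)
      linarith
    have e3 : (2 * g + g ^ 2) * (‖T‖ ^ 2 * a) ≤ 3 * g * (37 * 2) :=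
      mul_le_mul e2 e1 (by positivity) (by positivity)
    rw [e]
    linarith
  -- the quadratic form
  have hquad : 3 * η * ρ ^ 2 ≤ R * (A * τ ^ 2).im + ρ ^ 2 + R * (1 - 2 * r) * u ^ 2 := by
    set c : ℂ := A - ((1 / 2 - r : ℝ) : ℂ) * Complex.I with hcdef
    have e0 : ‖c * τ ^ 2‖ ≤ (1 / 2 - η) * ρ ^ 2 := by
      rw [norm_mul, norm_pow, ← hρ]
      exact mul_le_mul_of_nonneg_right hc hρ2'.le
    have e1 := (abs_le.mp ((Complex.abs_im_le_norm (c * τ ^ 2)).trans e0)).1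
    have e2 : (c * τ ^ 2).im = (A * τ ^ 2).im - (1 / 2 - r) * (τ.re ^ 2 - τ.im ^ 2) := by
      rw [hcdef]
      simp only [Complex.mul_im, Complex.sub_re, Complex.sub_im, Complex.mul_re,
        Complex.ofReal_re, Complex.ofReal_im, Complex.I_re, Complex.I_im, sq]
      ring
    have e3 : ρ ^ 2 = τ.re ^ 2 + τ.im ^ 2 := by
      rw [hρ, Complex.sq_norm, Complex.normSq_apply]; ring
    have e4 : R * (A * τ ^ 2).im + ρ ^ 2 + R * (1 - 2 * r) * u ^ 2 =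
        R * ((c * τ ^ 2).im + ρ ^ 2 / 2) := by
      have : ρ ^ 2 = R * r * ρ ^ 2 := by rw [hRr]; ring
      rw [e2]
      nth_rewrite 1 [this]
      rw [e3, hu]
      ring
    rw [e4]
    have e5 : η * ρ ^ 2 ≤ (c * τ ^ 2).im + ρ ^ 2 / 2 := by linarith
    calc 3 * η * ρ ^ 2 = 3 * (η * ρ ^ 2) := by ring
      _ ≤ R * (η * ρ ^ 2) := mul_le_mul_of_nonneg_right hR3 (by positivity)
      _ ≤ R * ((c * τ ^ 2).im + ρ ^ 2 / 2) := mul_le_mul_of_nonneg_left e5 (by linarith)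
  -- small terms
  have s1 : 17662 * ρ ^ 3 ≤ 8831 / 10000 * (η * ρ ^ 2) := by
    have : ρ ≤ η / 20000 := by rw [← ht]; exact hτ2
    have h9 : ρ ^ 3 ≤ η / 20000 * ρ ^ 2 := by
      calc ρ ^ 3 = ρ * ρ ^ 2 := by ring
        _ ≤ η / 20000 * ρ ^ 2 := mul_le_mul_of_nonneg_right this hρ2'.le
    linarith
  have s2 : 20 * ζ * ρ ≤ 1 / 2 * (η * ρ ^ 2) := by
    rw [hζ]
    have : η * t * ρ ≤ η * (2 * ρ) * ρ := by
      apply mul_le_mul_of_nonneg_right _ hρ0.le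
      exact mul_le_mul_of_nonneg_left (by linarith) hη.le
    have h9 : η * (2 * ρ) * ρ = 2 * (η * ρ ^ 2) := by ring
    rw [h9] at this
    linarith
  have s3 : 222 * g ≤ 1 / 2 * (η * ρ ^ 2) := by
    rw [hg]
    have : t ^ 2 ≤ (2 * ρ) ^ 2 := pow_le_pow_left₀ ht0.le (by linarith) 2
    have h9 : η * t ^ 2 ≤ η * (2 * ρ) ^ 2 := mul_le_mul_of_nonneg_left this hη.le
    have h10 : η * (2 * ρ) ^ 2 = 4 * (η * ρ ^ 2) := by ring
    rw [h10] at h9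
    linarith
  have hηρ : 0 < η * ρ ^ 2 := by positivity
  linarith

/-- size of `hh` -/
theorem op_size (τ hh A : ℂ) (hρ1 : ‖τ‖ ≤ 1 / 40000) (hA : ‖A‖ ≤ 4)
    (hh1 : ‖hh - τ - A * τ ^ 2 / 2‖ ≤ 1760 * ‖τ‖ ^ 3) : ‖hh‖ ≤ 2 * ‖τ‖ := by
  set ρ : ℝ := ‖τ‖ with hρ
  have hρ0 : 0 ≤ ρ := norm_nonneg _
  have hρ2 : ρ ^ 2 ≤ ρ / 40000 := by
    have : ρ * ρ ≤ ρ * (1 / 40000) := mul_le_mul_of_nonneg_left hρ1 hρ0
    linarith [sq ρ]
  have hρ3 : ρ ^ 3 ≤ ρ ^ 2 / 40000 := by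
    have : ρ ^ 2 * ρ ≤ ρ ^ 2 * (1 / 40000) := mul_le_mul_of_nonneg_left hρ1 (sq_nonneg ρ)
    linarith [pow_succ ρ 2]
  have e : hh = (hh - τ - A * τ ^ 2 / 2) + (τ + A * τ ^ 2 / 2) := by ring
  have e2 : ‖A * τ ^ 2 / 2‖ ≤ 2 * ρ ^ 2 := by
    rw [norm_div, norm_mul, norm_pow, ← hρ]
    simp only [Complex.norm_ofNat]
    have : ‖A‖ * ρ ^ 2 ≤ 4 * ρ ^ 2 := mul_le_mul_of_nonneg_right hA (sq_nonneg ρ)
    linarith
  calc ‖hh‖ ≤ ‖hh - τ - A * τ ^ 2 / 2‖ + ‖τ + A * τ ^ 2 / 2‖ := by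
        conv_lhs => rw [e]
        exact norm_add_le _ _
    _ ≤ 1760 * ρ ^ 3 + (ρ + 2 * ρ ^ 2) :=
        add_le_add hh1 ((norm_add_le _ _).trans (add_le_add le_rfl e2))
    _ ≤ 2 * ρ := by
        have := sq_nonneg ρ
        linarith

/-- local Harnack inequality -/
theorem op_harnack (F : ℂ → ℂ) (z0 z : ℂ)
    (hF : DifferentiableOn ℂ F {z : ℂ | 0 < z.im}) (h0 : 0 < z0.im)
    (hA : ∀ z : ℂ, ‖z - z0‖ ≤ z0.im / 2 → z.im * ‖deriv (deriv F) z‖ ≤ 4 * ‖deriv F z‖)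
    (hz : ‖z - z0‖ ≤ z0.im / 2) :
    ‖deriv F z‖ ≤ Real.exp 4 * ‖deriv F z0‖ := by
  have hopen : IsOpen {z : ℂ | 0 < z.im} := isOpen_lt continuous_const Complex.continuous_im
  have hF' : DifferentiableOn ℂ (deriv F) {z : ℂ | 0 < z.im} := hF.deriv hopen
  have hdist : ∀ s : ℝ, s ∈ Icc (0 : ℝ) 1 → ‖(z0 + s * (z - z0)) - z0‖ ≤ z0.im / 2 := by
    intro s hs
    rw [add_sub_cancel_left, norm_mul, Complex.norm_real, Real.norm_eq_abs, abs_of_nonneg hs.1]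
    calc s * ‖z - z0‖ ≤ 1 * ‖z - z0‖ := mul_le_mul_of_nonneg_right hs.2 (norm_nonneg _)
      _ ≤ z0.im / 2 := by rw [one_mul]; exact hz
  have him : ∀ s : ℝ, s ∈ Icc (0 : ℝ) 1 → z0.im / 2 ≤ (z0 + s * (z - z0)).im := by
    intro s hs
    have h1 := (abs_le.mp ((Complex.abs_im_le_norm _).trans (hdist s hs))).1
    rw [Complex.sub_im] at h1
    linarith
  have hder : ∀ s : ℝ, s ∈ Icc (0 : ℝ) 1 →
      HasDerivAt (fun s : ℝ => deriv F (z0 + s * (z - z0)))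
        (deriv (deriv F) (z0 + s * (z - z0)) * (z - z0)) s := by
    intro s hs
    have hp : 0 < (z0 + s * (z - z0)).im := lt_of_lt_of_le (by linarith) (him s hs)
    have h1 : HasDerivAt (deriv F) (deriv (deriv F) (z0 + s * (z - z0))) (z0 + s * (z - z0)) :=
      ((hF' _ hp).differentiableAt (hopen.mem_nhds hp)).hasDerivAt
    have h2 : HasDerivAt (fun s : ℝ => z0 + (s : ℂ) * (z - z0)) (z - z0) s := by
      have h3 : HasDerivAt (fun s : ℝ => (s : ℂ)) 1 s := Complex.ofRealCLM.hasDerivAt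
      have h4 := (h3.mul_const (z - z0)).const_add z0
      simpa using h4
    exact HasDerivAt.comp (𝕜 := ℝ) (h₂ := deriv F) (h := fun s : ℝ => z0 + (s : ℂ) * (z - z0)) s
      h1 h2
  have hcont : ContinuousOn (fun s : ℝ => deriv F (z0 + s * (z - z0))) (Icc 0 1) :=
    fun s hs => (hder s hs).continuousAt.continuousWithinAt
  have hgr := norm_le_gronwallBound_of_norm_deriv_right_le (δ := ‖deriv F z0‖) (K := 4) (ε := 0)
    hcont (fun s hs => (hder s ⟨hs.1, hs.2.le⟩).hasDerivWithinAt) (by simp) (by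
      intro s hs
      have hs' : s ∈ Icc (0 : ℝ) 1 := ⟨hs.1, hs.2.le⟩
      have h1 := hA _ (hdist s hs')
      rw [norm_mul, add_zero]
      have h2 : ‖deriv (deriv F) (z0 + s * (z - z0))‖ * ‖z - z0‖ ≤
          ‖deriv (deriv F) (z0 + s * (z - z0))‖ * (z0 + s * (z - z0)).im :=
        mul_le_mul_of_nonneg_left (hz.trans (him s hs')) (norm_nonneg _)
      linarith) 1 (by simp)
  rw [gronwallBound_ε0] at hgr
  simp only [Complex.ofReal_one, one_mul, add_sub_cancel, sub_zero, mul_one] at hgr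
  rw [mul_comm]
  exact hgr

theorem one_point (η : ℝ) (hη : 0 < η) (hη1 : η < 1 / 2) :
    ∃ t g ζ : ℝ, 0 < t ∧ t ≤ 1 / 8 ∧ 0 < g ∧ 0 < ζ ∧ ζ ≤ 1 ∧
      ∀ (r : ℝ) (F : ℂ → ℂ) (z0 w : ℂ), 1 / 5 ≤ r → r ≤ 1 / 3 →
      DifferentiableOn ℂ F {z : ℂ | 0 < z.im} → 0 < z0.im →
      (∀ z : ℂ, ‖z - z0‖ ≤ z0.im / 2 →
        z.im * ‖deriv (deriv F) z‖ ≤ 4 * ‖deriv F z‖) →
      deriv F z0 ≠ 0 →
      ‖(z0.im : ℂ) * deriv (deriv F) z0 / deriv F z0 - ((1 / 2 - r : ℝ) : ℂ) * Complex.I‖ ≤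
        1 / 2 - η →
      ‖w - (F z0 - Complex.I * ((z0.im : ℂ) * deriv F z0) / (r : ℂ))‖ ≤
        ζ * (z0.im * ‖deriv F z0‖) →
      (∀ z : ℂ, ‖z - z0‖ ≤ t * z0.im → F z ≠ w) ∧
      (∀ z : ℂ, t * z0.im / 2 ≤ ‖z - z0‖ → ‖z - z0‖ ≤ t * z0.im →
        (1 + g) * ‖F z0 - w‖ * z.im ^ r ≤ ‖F z - w‖ * z0.im ^ r) := by
  obtain ⟨t, ht⟩ : ∃ t : ℝ, t = η / 20000 := ⟨_, rfl⟩
  obtain ⟨ζ, hζ⟩ : ∃ ζ : ℝ, ζ = η * t / 80 := ⟨_, rfl⟩
  obtain ⟨g, hg⟩ : ∃ g : ℝ, g = η * t ^ 2 / 2000 := ⟨_, rfl⟩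
  have ht0 : 0 < t := by rw [ht]; positivity
  have ht1 : t ≤ 1 / 40000 := by rw [ht]; linarith
  have hζ0 : 0 < ζ := by rw [hζ]; positivity
  have hζ1 : ζ ≤ 1 / 100 := by
    rw [hζ]
    have : η * t ≤ 1 * (1 / 40000) := mul_le_mul (by linarith) ht1 ht0.le (by norm_num)
    linarith
  have hg0 : 0 < g := by rw [hg]; positivity
  refine ⟨t, g, ζ, ht0, by linarith, hg0, hζ0, by linarith, ?_⟩
  intro r F z0 w hr hr1 hF hy hA hV hc hw
  have hopen : IsOpen {z : ℂ | 0 < z.im} := isOpen_lt continuous_const Complex.continuous_im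
  have hF1 : DifferentiableOn ℂ (deriv F) {z : ℂ | 0 < z.im} := hF.deriv hopen
  have hF2 : DifferentiableOn ℂ (deriv (deriv F)) {z : ℂ | 0 < z.im} := hF1.deriv hopen
  set y0 : ℝ := z0.im with hy0
  set V : ℂ := deriv F z0 with hVdef
  have hyc : (y0 : ℂ) ≠ 0 := by
    rw [Ne, Complex.ofReal_eq_zero]
    exact hy.ne'
  have hVn : 0 < ‖V‖ := norm_pos_iff.mpr hV
  have hr0 : 0 < r := by linarith
  have hrc : (r : ℂ) ≠ 0 := by
    rw [Ne, Complex.ofReal_eq_zero]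
    exact hr0.ne'
  have hyV : (y0 : ℂ) * V ≠ 0 := mul_ne_zero hyc hV
  have hnyV : ‖(y0 : ℂ) * V‖ = y0 * ‖V‖ := by
    rw [norm_mul, Complex.norm_real, Real.norm_eq_abs, abs_of_pos hy]
  -- the point z0 + y0 τ
  have him : ∀ τ : ℂ, (z0 + (y0 : ℂ) * τ).im = y0 * (1 + τ.im) := by
    intro τ
    rw [Complex.add_im, Complex.im_ofReal_mul, ← hy0]
    ring
  have hpos : ∀ τ ∈ ball (0 : ℂ) 1, 0 < (z0 + (y0 : ℂ) * τ).im := by
    intro τ hτ
    rw [mem_ball, dist_zero_right] at hτ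
    rw [him]
    have := (abs_le.mp ((Complex.abs_im_le_norm τ).trans hτ.le)).1
    have h2 : -1 < τ.im := by
      have h3 := (abs_lt.mp (lt_of_le_of_lt (Complex.abs_im_le_norm τ) hτ)).1
      exact h3
    exact mul_pos hy (by linarith)
  have haff : ∀ τ : ℂ, HasDerivAt (fun τ : ℂ => z0 + (y0 : ℂ) * τ) (y0 : ℂ) τ := by
    intro τ
    simpa using ((hasDerivAt_id' τ).const_mul (y0 : ℂ)).const_add z0
  set h : ℂ → ℂ := fun τ => (F (z0 + (y0 : ℂ) * τ) - F z0) / ((y0 : ℂ) * V) with hh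
  set h1 : ℂ → ℂ := fun τ => deriv F (z0 + (y0 : ℂ) * τ) / V with hh1
  set h2 : ℂ → ℂ := fun τ => (y0 : ℂ) * deriv (deriv F) (z0 + (y0 : ℂ) * τ) / V with hh2
  have hd : ∀ τ ∈ ball (0 : ℂ) 1, HasDerivAt h (h1 τ) τ := by
    intro τ hτ
    have a1 : HasDerivAt F (deriv F (z0 + (y0 : ℂ) * τ)) (z0 + (y0 : ℂ) * τ) :=
      ((hF _ (hpos τ hτ)).differentiableAt (hopen.mem_nhds (hpos τ hτ))).hasDerivAt
    have a2 : HasDerivAt (fun τ : ℂ => F (z0 + (y0 : ℂ) * τ))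
        (deriv F (z0 + (y0 : ℂ) * τ) * (y0 : ℂ)) τ := a1.comp τ (haff τ)
    have a3 := (a2.sub_const (F z0)).div_const ((y0 : ℂ) * V)
    have e : h1 τ = deriv F (z0 + (y0 : ℂ) * τ) * (y0 : ℂ) / ((y0 : ℂ) * V) := by
      rw [hh1]
      field_simp
    rw [e]
    exact a3
  have hd1 : ∀ τ ∈ ball (0 : ℂ) 1, HasDerivAt h1 (h2 τ) τ := by
    intro τ hτ
    have a1 : HasDerivAt (deriv F) (deriv (deriv F) (z0 + (y0 : ℂ) * τ)) (z0 + (y0 : ℂ) * τ) :=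
      ((hF1 _ (hpos τ hτ)).differentiableAt (hopen.mem_nhds (hpos τ hτ))).hasDerivAt
    have a2 : HasDerivAt (fun τ : ℂ => deriv F (z0 + (y0 : ℂ) * τ))
        (deriv (deriv F) (z0 + (y0 : ℂ) * τ) * (y0 : ℂ)) τ :=
      HasDerivAt.comp (h₂ := deriv F) (h := fun τ : ℂ => z0 + (y0 : ℂ) * τ) τ a1 (haff τ)
    have a3 := a2.div_const V
    have e : h2 τ = deriv (deriv F) (z0 + (y0 : ℂ) * τ) * (y0 : ℂ) / V := by
      rw [hh2]
      ring
    rw [e]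
    exact a3
  have hd2 : DifferentiableOn ℂ h2 (ball 0 1) := by
    intro τ hτ
    have a1 : DifferentiableAt ℂ (deriv (deriv F)) (z0 + (y0 : ℂ) * τ) :=
      (hF2 _ (hpos τ hτ)).differentiableAt (hopen.mem_nhds (hpos τ hτ))
    have a2 : DifferentiableAt ℂ (fun τ : ℂ => deriv (deriv F) (z0 + (y0 : ℂ) * τ)) τ :=
      DifferentiableAt.comp (g := deriv (deriv F)) (f := fun τ : ℂ => z0 + (y0 : ℂ) * τ) τ a1
        (haff τ).differentiableAt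
    exact ((a2.const_mul (y0 : ℂ)).div_const V).differentiableWithinAt
  have hdist : ∀ τ : ℂ, ‖(z0 + (y0 : ℂ) * τ) - z0‖ = y0 * ‖τ‖ := by
    intro τ
    rw [add_sub_cancel_left, norm_mul, Complex.norm_real, Real.norm_eq_abs, abs_of_pos hy]
  have hb : ∀ τ ∈ closedBall (0 : ℂ) (1 / 2), ‖h2 τ‖ ≤ 440 := by
    intro τ hτ
    rw [mem_closedBall, dist_zero_right] at hτ
    have hz : ‖(z0 + (y0 : ℂ) * τ) - z0‖ ≤ z0.im / 2 := by
      rw [hdist, ← hy0]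
      have : y0 * ‖τ‖ ≤ y0 * (1 / 2) := mul_le_mul_of_nonneg_left hτ hy.le
      linarith
    have b1 := op_harnack F z0 _ hF hy hA hz
    have b2 := hA _ hz
    rw [him] at b2
    have b3 : -(1 / 2) ≤ τ.im := (abs_le.mp ((Complex.abs_im_le_norm τ).trans hτ)).1
    have hexp4 : Real.exp 4 ≤ 55 := by
      have := Real.exp_one_lt_d9
      have e4 : Real.exp 4 = Real.exp 1 ^ 4 := by
        rw [← Real.exp_nat_mul]
        norm_num
      rw [e4]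
      calc Real.exp 1 ^ 4 ≤ 2.7182818286 ^ 4 := pow_le_pow_left₀ (Real.exp_pos 1).le this.le 4
        _ ≤ 55 := by norm_num
    have b4 : y0 * (1 / 2) * ‖deriv (deriv F) (z0 + (y0 : ℂ) * τ)‖ ≤
        y0 * (1 + τ.im) * ‖deriv (deriv F) (z0 + (y0 : ℂ) * τ)‖ := by
      apply mul_le_mul_of_nonneg_right _ (norm_nonneg _)
      exact mul_le_mul_of_nonneg_left (by linarith) hy.le
    have b5 : Real.exp 4 * ‖V‖ ≤ 55 * ‖V‖ := mul_le_mul_of_nonneg_right hexp4 hVn.le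
    have b6 : ‖h2 τ‖ = y0 * ‖deriv (deriv F) (z0 + (y0 : ℂ) * τ)‖ / ‖V‖ := by
      rw [hh2]
      simp only [norm_div, norm_mul, Complex.norm_real, Real.norm_eq_abs, abs_of_pos hy]
    rw [b6, div_le_iff₀ hVn]
    linarith
  have h00 : h 0 = 0 := by
    rw [hh]
    simp
  have h10 : h1 0 = 1 := by
    rw [hh1]
    simp only [mul_zero, add_zero]
    exact div_self hV
  have h20 : h2 0 = (y0 : ℂ) * deriv (deriv F) z0 / V := by
    rw [hh2]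
    simp
  set A : ℂ := h2 0 with hAdef
  have hA4 : ‖A‖ ≤ 4 := by
    have := hA z0 (by simp only [sub_self, norm_zero]; linarith)
    rw [h20, norm_div, norm_mul, Complex.norm_real, Real.norm_eq_abs, abs_of_pos hy,
      div_le_iff₀ hVn]
    exact this
  have hT3 : ∀ τ : ℂ, ‖τ‖ ≤ 1 / 4 → ‖h τ - τ - A * τ ^ 2 / 2‖ ≤ 1760 * ‖τ‖ ^ 3 := by
    intro τ hτ
    have := op_taylor h h1 h2 440 (by norm_num) hd hd1 hd2 hb h00 h10 τ hτ
    calc ‖h τ - τ - A * τ ^ 2 / 2‖ ≤ 4 * 440 * ‖τ‖ ^ 3 := this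
      _ = 1760 * ‖τ‖ ^ 3 := by ring
  -- T
  obtain ⟨T, hT⟩ : ∃ T : ℂ, T = Complex.I * (w - F z0) / ((y0 : ℂ) * V) := ⟨_, rfl⟩
  have hwT : F z0 - w = (y0 : ℂ) * V * (Complex.I * T) := by
    rw [hT]
    field_simp
    rw [Complex.I_sq]
    ring
  have hTr : ‖T - ((1 / r : ℝ) : ℂ)‖ ≤ ζ := by
    have e : T - ((1 / r : ℝ) : ℂ) = Complex.I / ((y0 : ℂ) * V) *
        (w - (F z0 - Complex.I * ((y0 : ℂ) * V) / (r : ℂ))) := by
      rw [hT]
      push_cast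
      field_simp
      ring_nf
      rw [Complex.I_sq]
      ring
    rw [e, norm_mul, norm_div, Complex.norm_I, hnyV]
    rw [one_div, inv_mul_le_iff₀ (mul_pos hy hVn)]
    calc _ ≤ ζ * (y0 * ‖V‖) := hw
      _ = y0 * ‖V‖ * ζ := by ring
  have hFz : ∀ z : ℂ, F z - w = (y0 : ℂ) * V * (h ((z - z0) / (y0 : ℂ)) + Complex.I * T) := by
    intro z
    have e : z0 + (y0 : ℂ) * ((z - z0) / (y0 : ℂ)) = z := by
      field_simp
      ring
    have e2 : (y0 : ℂ) * V * h ((z - z0) / (y0 : ℂ)) = F z - F z0 := by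
      rw [hh]
      simp only
      rw [e]
      field_simp
    rw [mul_add, e2, ← hwT]
    ring
  have hnorm : ∀ z : ℂ, ‖(z - z0) / (y0 : ℂ)‖ = ‖z - z0‖ / y0 := by
    intro z
    rw [norm_div, Complex.norm_real, Real.norm_eq_abs, abs_of_pos hy]
  have hTn : 2 ≤ ‖T‖ := by
    have e : ‖((1 / r : ℝ) : ℂ)‖ = 1 / r := by
      rw [Complex.norm_real, Real.norm_eq_abs, abs_of_pos (by positivity)]
    have h3 : 3 ≤ 1 / r := by rw [le_div_iff₀ hr0]; linarith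
    have := norm_sub_norm_le ((1 / r : ℝ) : ℂ) T
    rw [norm_sub_rev, e] at this
    linarith
  constructor
  · intro z hz hzw
    have e := hFz z
    rw [hzw, sub_self] at e
    have hτ : ‖(z - z0) / (y0 : ℂ)‖ ≤ t := by
      rw [hnorm, div_le_iff₀ hy]
      exact hz
    have hsz := op_size ((z - z0) / (y0 : ℂ)) (h ((z - z0) / (y0 : ℂ))) A (hτ.trans ht1) hA4
      (hT3 _ (by linarith))
    have e3 : h ((z - z0) / (y0 : ℂ)) + Complex.I * T = 0 := by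
      rcases mul_eq_zero.mp e.symm with h' | h'
      · exact absurd h' hyV
      · exact h'
    have e4 : ‖T‖ = ‖h ((z - z0) / (y0 : ℂ))‖ := by
      have : Complex.I * T = -h ((z - z0) / (y0 : ℂ)) := by
        linear_combination e3
      have h5 : ‖Complex.I * T‖ = ‖h ((z - z0) / (y0 : ℂ))‖ := by rw [this, norm_neg]
      rwa [norm_mul, Complex.norm_I, one_mul] at h5
    linarith
  · intro z hz1 hz2
    set τ : ℂ := (z - z0) / (y0 : ℂ) with hτdef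
    have hτ2 : ‖τ‖ ≤ t := by
      rw [hnorm, div_le_iff₀ hy]
      exact hz2
    have hτ1 : t / 2 ≤ ‖τ‖ := by
      rw [hnorm, le_div_iff₀ hy]
      linarith
    have hcore := op_core η r t ζ g hη hη1 hr hr1 ht hζ hg τ (h τ) T A hτ1 hτ2 hTr hA4
      (by rw [h20]; exact hc) (hT3 τ (by linarith))
    have hu1 : |τ.im| ≤ t := (Complex.abs_im_le_norm τ).trans hτ2
    have h1u : 0 < 1 + τ.im := by linarith [(abs_le.mp hu1).1]
    have hz : z.im = y0 * (1 + τ.im) := by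
      have e : z = z0 + (y0 : ℂ) * τ := by
        rw [hτdef]
        field_simp
        ring
      conv_lhs => rw [e]
      exact him τ
    have hpow : (1 + τ.im) ^ (2 * r) = ((1 + τ.im) ^ r) ^ 2 := by
      rw [← Real.rpow_natCast, ← Real.rpow_mul h1u.le]
      congr 1
      push_cast
      ring
    rw [hpow, ← mul_pow] at hcore
    have hsq : (1 + g) * ‖T‖ * (1 + τ.im) ^ r ≤ ‖h τ + Complex.I * T‖ :=
      le_of_sq_le_sq hcore (norm_nonneg _)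
    have hn1 : ‖F z0 - w‖ = y0 * ‖V‖ * ‖T‖ := by
      rw [hwT, norm_mul, hnyV, norm_mul, Complex.norm_I, one_mul]
    have hn2 : ‖F z - w‖ = y0 * ‖V‖ * ‖h τ + Complex.I * T‖ := by
      rw [hFz z, norm_mul, hnyV]
    rw [hn1, hn2, hz, Real.mul_rpow hy.le h1u.le]
    have hK : 0 ≤ y0 * ‖V‖ * y0 ^ r := by positivity
    calc (1 + g) * (y0 * ‖V‖ * ‖T‖) * (y0 ^ r * (1 + τ.im) ^ r) =
        y0 * ‖V‖ * y0 ^ r * ((1 + g) * ‖T‖ * (1 + τ.im) ^ r) := by ring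
      _ ≤ y0 * ‖V‖ * y0 ^ r * ‖h τ + Complex.I * T‖ := mul_le_mul_of_nonneg_left hsq hK
      _ = y0 * ‖V‖ * ‖h τ + Complex.I * T‖ * y0 ^ r := by ring

end Pool.Agent.H16.EC
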