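import Mathlib

/-!
Project EC, part S (slack): a finite family of disjoint balls with centres in a compact subset of the
upper half plane, whose fourfold enlargements cover the compact set (compactness and Vitali).
-/

set_option autoImplicit false

namespace Pool.Agent.H16.EC

open Metric Set MeasureTheory

theorem cover (K : Set ℂ) (hK : IsCompact K) (hpos : ∀ z ∈ K, 0 < z.im) (t : ℝ) (ht : 0 < t) :
    ∃ u : Finset ℂ, (∀ z ∈ u, z ∈ K) ∧
      (∀ z ∈ u, ∀ z' ∈ u, z ≠ z' →
        Disjoint (closedBall z (t * z.im)) (closedBall z' (t * z'.im))) ∧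
      K ⊆ ⋃ z ∈ u, closedBall z (4 * t * z.im) := by
  obtain ⟨s, hsK, hs⟩ := hK.elim_nhds_subcover (fun z => closedBall z (t * z.im))
    (fun z hz => closedBall_mem_nhds z (mul_pos ht (hpos z hz)))
  obtain ⟨R, hR⟩ : ∃ R : ℝ, ∀ z ∈ (s : Set ℂ), t * z.im ≤ R := by
    obtain ⟨R, hR⟩ := (s.finite_toSet.image (fun z : ℂ => t * z.im)).bddAbove
    exact ⟨R, fun z hz => hR ⟨z, hz, rfl⟩⟩
  obtain ⟨v, hvs, hdisj, hcov⟩ := Vitali.exists_disjoint_subfamily_covering_enlargement_closedBall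
    (s : Set ℂ) (fun z : ℂ => z) (fun z : ℂ => t * z.im) R hR 4 (by norm_num)
  have hvfin : v.Finite := s.finite_toSet.subset hvs
  refine ⟨hvfin.toFinset, ?_, ?_, ?_⟩
  · intro z hz
    exact hsK z (hvs (hvfin.mem_toFinset.mp hz))
  · intro z hz z' hz' hne
    exact hdisj (hvfin.mem_toFinset.mp hz) (hvfin.mem_toFinset.mp hz') hne
  · intro z hz
    have h1 := hs hz
    simp only [mem_iUnion] at h1
    obtain ⟨a, ha, hza⟩ := h1
    obtain ⟨b, hb, hab⟩ := hcov a ha
    simp only [mem_iUnion]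
    refine ⟨b, hvfin.mem_toFinset.mpr hb, ?_⟩
    have h2 := hab hza
    rw [mul_assoc]
    exact h2

end Pool.Agent.H16.EC
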